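import Pool.Agent.H112R2.FinalGap
import Pool.Agent.TH513.IS.Final
set_option autoImplicit false

/-! Freiman-Ruzsa theorem for iterated sumsets in torsion-free groups, with proper
progressions. -/

namespace Pool.Agent.V1121.PF

open Finset H112 Pool.Agent.TH513.IS
open scoped Pointwise

/-- the structure attached to the scale found by the pigeonhole principle -/
theorem scale_gap_fg {G : Type*} [AddCommGroup G] [AddGroup.FG G] [DecidableEq G]
    (htf : ∀ (n : ℕ) (x : G), n ≠ 0 → n • x = 0 → x = 0) {L K : ℝ} {J : ℕ}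
    {A : Finset G} (hA : A.Nonempty) (hJ : 1 ≤ J)
    (hL : ((sm A (2 ^ J)).card : ℝ) ≤ L * A.card) (hL1 : 1 ≤ L) (hK1 : 1 ≤ K)
    (hKL : L ≤ K ^ J) :
    ∃ (k : ℕ) (v : Fin k → G) (M : Fin k → ℕ) (T : Finset G),
      (k : ℝ) ≤ 300 * Real.log (2 * K) ∧
      (∀ a b : Fin k → ℤ, (∀ i, |a i| ≤ M i) → (∀ i, |b i| ≤ M i) →
        ∑ i, a i • v i = ∑ i, b i • v i → a = b) ∧
      ∏ i, (2 * M i + 1) ≤ A.card ∧
      (T.card : ℝ) ≤
        L * (2 * K) ^ (17000 * (1 + Real.log (1 + Real.log (2 * K)))) ∧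
      ∀ a ∈ A, ∃ t ∈ T, ∃ c : Fin k → ℤ, (∀ i, |c i| ≤ M i) ∧ a = t + ∑ i, c i • v i := by
  classical
  have hK0 : 0 < K := by linarith
  have hApos : (0 : ℝ) < A.card := by exact_mod_cast hA.card_pos
  obtain ⟨i, hi, hiK⟩ := exists_scale hA hK0
    (hL.trans (mul_le_mul_of_nonneg_right hKL hApos.le)) hJ
  obtain ⟨B, hB⟩ : ∃ B, B = sm A (2 ^ i) := ⟨_, rfl⟩
  have hBne : B.Nonempty := by rw [hB]; exact sm_nonempty hA _
  have hBB : ((B + B).card : ℝ) ≤ K * B.card := by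
    have h1 : (B + B).card ≤ (sm A (2 ^ (i + 1))).card := by
      apply Finset.card_le_card
      have e : 2 ^ (i + 1) = 2 ^ i + 2 ^ i := by ring
      rw [hB, e]
      exact sm_add_subset
    have h2 : ((B + B).card : ℝ) ≤ (sm A (2 ^ (i + 1))).card := by exact_mod_cast h1
    rw [← hB] at hiK
    exact h2.trans hiK
  have hBL : (B.card : ℝ) ≤ L * A.card := by
    have h1 : B.card ≤ (sm A (2 ^ J)).card := by
      rw [hB]
      exact sm_card_mono hA (Nat.pow_le_pow_right (by norm_num) hi.le)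
    have h2 : (B.card : ℝ) ≤ (sm A (2 ^ J)).card := by exact_mod_cast h1
    exact h2.trans hL
  obtain ⟨κ, hκ⟩ : ∃ κ : ℝ, κ = Real.log (2 * K) := ⟨_, rfl⟩
  have hκlog2 : Real.log 2 ≤ κ := by
    rw [hκ]; exact Real.log_le_log (by norm_num) (by linarith)
  have hκ69 : (0.69 : ℝ) < κ := lt_of_lt_of_le log_two_gt hκlog2
  obtain ⟨S, X, V, ρ, m, N, ψ, hfin, hV1, hsize, hρ0, hρ12, hX, hN, h1, h2, hm, hXV⟩ :=
    structure_thm hBne hBB hK1 hκ
  obtain ⟨a₀, ha₀⟩ := hA
  obtain ⟨k, hk⟩ : ∃ k, 2 ^ i = k + 1 := ⟨2 ^ i - 1, by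
    have := Nat.one_le_two_pow (n := i)
    omega⟩
  -- `A` is covered as well
  have hX' : ∀ a ∈ A, ∃ x ∈ X.image (fun x => x - k • a₀), a - x ∈ bohr S ρ := by
    intro a ha
    have h3 : a + k • a₀ ∈ B := by
      rw [hB, hk, add_comm k 1]
      exact add_mem_sm (sm_one_mem ha) (nsmul_mem_sm ha₀ k)
    obtain ⟨x, hx, hxa⟩ := hX _ h3
    refine ⟨x - k • a₀, Finset.mem_image_of_mem _ hx, ?_⟩
    have e : a - (x - k • a₀) = a + k • a₀ - x := by abel
    rw [e]
    exact hxa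
  have hsize' : ((bohr S (1 / 6)).ncard : ℝ) ≤ (V * L) * A.card := by
    calc ((bohr S (1 / 6)).ncard : ℝ) ≤ V * B.card := hsize
      _ ≤ V * (L * A.card) := mul_le_mul_of_nonneg_left hBL (by linarith)
      _ = _ := by ring
  have hVL : 1 ≤ V * L := by nlinarith
  obtain ⟨d, v, M, T, hd, hprop, hvol, hT, hcov⟩ :=
    gap_final S hfin ⟨a₀, ha₀⟩ hVL hsize' hρ0 hρ12 hX' N ψ hN h1 h2 (ann_eq_bot hfin htf)
  have hlogκ : 0 ≤ Real.log (1 + κ) := Real.log_nonneg (by linarith)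
  refine ⟨d, v, M, T, ?_, hprop, hvol, ?_, hcov⟩
  · rw [← hκ]
    have : (d : ℝ) ≤ m := by exact_mod_cast hd
    exact this.trans hm
  · rw [← exp_eq_rpow hK1, ← hκ]
    have h3 : ((4 * (m : ℝ) + 1)) ^ m ≤
        Real.exp ((300 * κ) * (8 * (1 + Real.log (1 + κ)))) :=
      pow_le_exp (by positivity) (log_4m_le hκ69 hm) hm (by positivity)
    have h4 : (12 * (m : ℝ) ^ 3) ^ m ≤
        Real.exp ((300 * κ) * (20 * (1 + Real.log (1 + κ)))) := by
      rcases Nat.eq_zero_or_pos m with h0 | hpos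
      · subst h0
        rw [pow_zero]
        exact Real.one_le_exp (by positivity)
      · have hm1 : (0 : ℝ) < m := by exact_mod_cast hpos
        exact pow_le_exp (by positivity) (log_12m_le hκ69 hm hpos) hm (by positivity)
    have hV0 : 0 ≤ V := by linarith
    have hL0 : 0 ≤ L := by linarith
    have hXc : ((X.image (fun x => x - k • a₀)).card : ℝ) ≤ X.card := by
      exact_mod_cast Finset.card_image_le
    calc (T.card : ℝ) ≤ (X.image (fun x => x - k • a₀)).card *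
          ((V * L) * (4 * m + 1) ^ m * (12 * m ^ 3) ^ m) := hT
      _ ≤ X.card * ((V * L) * (4 * m + 1) ^ m * (12 * m ^ 3) ^ m) :=
          mul_le_mul_of_nonneg_right hXc (by positivity)
      _ = L * ((X.card * V) * ((4 * m + 1) ^ m * (12 * m ^ 3) ^ m)) := by ring
      _ ≤ L * (Real.exp (8000 * κ * (1 + Real.log (1 + κ))) *
            (Real.exp ((300 * κ) * (8 * (1 + Real.log (1 + κ)))) *
              Real.exp ((300 * κ) * (20 * (1 + Real.log (1 + κ)))))) := by
          apply mul_le_mul_of_nonneg_left _ hL0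
          apply mul_le_mul hXV _ (by positivity) (by positivity)
          exact mul_le_mul h3 h4 (by positivity) (by positivity)
      _ = L * Real.exp (8000 * κ * (1 + Real.log (1 + κ)) +
            ((300 * κ) * (8 * (1 + Real.log (1 + κ))) +
              (300 * κ) * (20 * (1 + Real.log (1 + κ))))) := by
          rw [← Real.exp_add, ← Real.exp_add]
      _ ≤ L * Real.exp (17000 * κ * (1 + Real.log (1 + κ))) := by
          apply mul_le_mul_of_nonneg_left _ hL0
          apply Real.exp_le_exp.2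
          have h10 : 0 ≤ κ * Real.log (1 + κ) := mul_nonneg (by linarith) hlogκ
          nlinarith

/-- the same in an arbitrary torsion-free abelian group -/
theorem scale_gap {G : Type*} [AddCommGroup G] [DecidableEq G]
    (htf : ∀ (n : ℕ) (x : G), n ≠ 0 → n • x = 0 → x = 0) {L K : ℝ} {J : ℕ}
    {A : Finset G} (hA : A.Nonempty) (hJ : 1 ≤ J)
    (hL : ((sm A (2 ^ J)).card : ℝ) ≤ L * A.card) (hL1 : 1 ≤ L) (hK1 : 1 ≤ K)
    (hKL : L ≤ K ^ J) :
    ∃ (k : ℕ) (v : Fin k → G) (M : Fin k → ℕ) (T : Finset G),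
      (k : ℝ) ≤ 300 * Real.log (2 * K) ∧
      (∀ a b : Fin k → ℤ, (∀ i, |a i| ≤ M i) → (∀ i, |b i| ≤ M i) →
        ∑ i, a i • v i = ∑ i, b i • v i → a = b) ∧
      ∏ i, (2 * M i + 1) ≤ A.card ∧
      (T.card : ℝ) ≤
        L * (2 * K) ^ (17000 * (1 + Real.log (1 + Real.log (2 * K)))) ∧
      ∀ a ∈ A, ∃ t ∈ T, ∃ c : Fin k → ℤ, (∀ i, |c i| ≤ M i) ∧ a = t + ∑ i, c i • v i := by
  classical
  obtain ⟨Γ, hΓ⟩ : ∃ Γ : AddSubgroup G, Γ = AddSubgroup.closure (A : Set G) := ⟨_, rfl⟩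
  obtain ⟨A', hA'⟩ := exists_model A Γ (fun a ha => by
    rw [hΓ]; exact AddSubgroup.subset_closure ha)
  have hinj : Function.Injective Γ.subtype := Γ.subtype_injective
  haveI : AddGroup.FG Γ := by
    rw [AddGroup.fg_iff_addSubgroup_fg]
    exact ⟨A, hΓ.symm⟩
  have hA'ne : A'.Nonempty := by
    rw [← hA'] at hA; exact Finset.image_nonempty.1 hA
  have hcard : A'.card = A.card := by
    rw [← hA', Finset.card_image_of_injective _ hinj]
  have hcard2 : (sm A' (2 ^ J)).card = (sm A (2 ^ J)).card := by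
    rw [← hA', ← sm_image, Finset.card_image_of_injective _ hinj]
  have hL' : ((sm A' (2 ^ J)).card : ℝ) ≤ L * A'.card := by rw [hcard2, hcard]; exact hL
  have htf' : ∀ (n : ℕ) (x : Γ), n ≠ 0 → n • x = 0 → x = 0 := by
    intro n x hn hx
    apply hinj
    rw [map_zero]
    apply htf n _ hn
    rw [← map_nsmul, hx, map_zero]
  obtain ⟨k, v, M, T, hk, hprop, hvol, hT, hcov⟩ := scale_gap_fg htf' hA'ne hJ hL' hL1 hK1 hKL
  have hsum : ∀ c : Fin k → ℤ, ∑ i, c i • Γ.subtype (v i) = Γ.subtype (∑ i, c i • v i) := by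
    intro c
    rw [map_sum]
    simp only [map_zsmul]
  refine ⟨k, fun i => Γ.subtype (v i), M, T.image Γ.subtype, hk, ?_, ?_, ?_, ?_⟩
  · intro a b ha hb hab
    rw [hsum, hsum] at hab
    exact hprop a b ha hb (hinj hab)
  · rw [← hcard]; exact hvol
  · refine le_trans ?_ hT
    exact_mod_cast Finset.card_image_le
  · intro a ha
    rw [← hA'] at ha
    obtain ⟨a', ha', rfl⟩ := Finset.mem_image.1 ha
    obtain ⟨t, ht, c, hc, e⟩ := hcov a' ha'
    refine ⟨Γ.subtype t, Finset.mem_image_of_mem _ ht, c, hc, ?_⟩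
    rw [hsum, e, map_add]

/-- **Freiman-Ruzsa theorem for iterated sumsets, with proper progressions.** -/
theorem iterated_gap {G : Type*} [AddCommGroup G] [DecidableEq G]
    (htf : ∀ (n : ℕ) (x : G), n ≠ 0 → n • x = 0 → x = 0) {k n : ℕ} (hk : 1 ≤ k)
    (hn : 2 ≤ n) {L : ℝ} {A : Finset G} (hA : A.Nonempty)
    (hL : ((sm A n).card : ℝ) ≤ L * A.card) (hkn : Real.log (2 * L) ≤ (n : ℝ) ^ k) :
    ∃ (d : ℕ) (v : Fin d → G) (M : Fin d → ℕ) (T : Finset G),
      (d : ℝ) ≤ 420 * (1 + Real.log (2 * L) / Real.log n) ∧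
      (∀ a b : Fin d → ℤ, (∀ i, |a i| ≤ M i) → (∀ i, |b i| ≤ M i) →
        ∑ i, a i • v i = ∑ i, b i • v i → a = b) ∧
      ∏ i, (2 * M i + 1) ≤ A.card ∧
      (T.card : ℝ) ≤ (2 * L) ^ (113000 * k) ∧
      ∀ a ∈ A, ∃ t ∈ T, ∃ c : Fin d → ℤ, (∀ i, |c i| ≤ M i) ∧ a = t + ∑ i, c i • v i := by
  classical
  have hApos : (0 : ℝ) < A.card := by exact_mod_cast hA.card_pos
  have hL1 : 1 ≤ L := by
    have h1 : A.card ≤ (sm A n).card := by
      have := sm_card_mono hA (show 1 ≤ n by omega)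
      rwa [sm_one] at this
    have h2 : (A.card : ℝ) ≤ (sm A n).card := by exact_mod_cast h1
    nlinarith
  obtain ⟨J, hJ⟩ : ∃ J, J = Nat.log 2 n := ⟨_, rfl⟩
  have hJ1 : 1 ≤ J := by
    rw [hJ]
    exact Nat.log_pos (by norm_num) hn
  have hJR : (1 : ℝ) ≤ J := by exact_mod_cast hJ1
  have hL' : ((sm A (2 ^ J)).card : ℝ) ≤ L * A.card := by
    have h1 : (sm A (2 ^ J)).card ≤ (sm A n).card := by
      apply sm_card_mono hA
      rw [hJ]
      exact Nat.pow_log_le_self 2 (by omega)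
    have h2 : ((sm A (2 ^ J)).card : ℝ) ≤ (sm A n).card := by exact_mod_cast h1
    exact h2.trans hL
  obtain ⟨K, hK⟩ : ∃ K : ℝ, K = L ^ (1 / (J : ℝ)) := ⟨_, rfl⟩
  have hK1 : 1 ≤ K := by
    rw [hK]
    exact Real.one_le_rpow hL1 (by positivity)
  have hK0 : 0 < K := by linarith
  have hKJ : K ^ J = L := by
    rw [hK, ← Real.rpow_natCast, ← Real.rpow_mul (by linarith)]
    have : 1 / (J : ℝ) * J = 1 := by field_simp
    rw [this, Real.rpow_one]
  obtain ⟨d, v, M, T, hd, hprop, hvol, hT, hcov⟩ :=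
    scale_gap htf hA hJ1 hL' hL1 hK1 hKJ.ge
  have hκ' : Real.log (2 * K) = Real.log 2 + Real.log L / (Nat.log 2 n : ℝ) := by
    rw [Real.log_mul (by norm_num) (by linarith), hK, Real.log_rpow (by linarith), ← hJ]
    ring
  obtain ⟨hb1, hb2⟩ := kappa_bounds hk hn hL1 hκ' hkn
  refine ⟨d, v, M, T, hd.trans hb1, hprop, hvol, ?_, hcov⟩
  refine hT.trans ?_
  rw [← exp_eq_rpow hK1]
  have e1 : (2 * L) ^ (113000 * k) = Real.exp (113000 * k * Real.log (2 * L)) := by
    rw [← Real.exp_log (show (0 : ℝ) < (2 * L) ^ (113000 * k) by positivity), Real.log_pow]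
    push_cast
    ring_nf
  rw [e1]
  have hlogL : 0 ≤ Real.log L := Real.log_nonneg hL1
  have hlog2L : 0 ≤ Real.log (2 * L) := Real.log_nonneg (by linarith)
  have hkl : 0 ≤ (k : ℝ) * Real.log (2 * L) := mul_nonneg (Nat.cast_nonneg k) hlog2L
  calc L * Real.exp (17000 * Real.log (2 * K) * (1 + Real.log (1 + Real.log (2 * K))))
      = Real.exp (Real.log L + 17000 * Real.log (2 * K) *
          (1 + Real.log (1 + Real.log (2 * K)))) := by
        rw [Real.exp_add, Real.exp_log (by linarith)]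
    _ ≤ _ := by
        apply Real.exp_le_exp.2
        have h5 : 17000 * Real.log (2 * K) * (1 + Real.log (1 + Real.log (2 * K))) =
            (17 / 13) * (13000 * Real.log (2 * K) * (1 + Real.log (1 + Real.log (2 * K)))) := by
          ring
        rw [h5]
        nlinarith [hb2, hlogL, hkl]

/-- form with progressions `{∑ n_i v_i : 0 ≤ n_i < N_i}` -/
theorem iterated_gap' {G : Type*} [AddCommGroup G] [DecidableEq G]
    (htf : ∀ (n : ℕ) (x : G), n ≠ 0 → n • x = 0 → x = 0) {k n : ℕ} (hk : 1 ≤ k)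
    (hn : 2 ≤ n) {L : ℝ} {A : Finset G} (hA : A.Nonempty)
    (hL : ((sm A n).card : ℝ) ≤ L * A.card) (hkn : Real.log (2 * L) ≤ (n : ℝ) ^ k) :
    ∃ (d : ℕ) (v : Fin d → G) (N : Fin d → ℕ) (T : Finset G),
      (d : ℝ) ≤ 420 * (1 + Real.log (2 * L) / Real.log n) ∧ (∀ i, 1 ≤ N i) ∧
      (∀ m n : Fin d → ℕ, (∀ i, m i < N i) → (∀ i, n i < N i) →
        ∑ i, m i • v i = ∑ i, n i • v i → m = n) ∧
      ∏ i, N i ≤ A.card ∧
      (T.card : ℝ) ≤ (2 * L) ^ (113000 * k) ∧
      ∀ a ∈ A, ∃ t ∈ T, ∃ c : Fin d → ℕ, (∀ i, c i < N i) ∧ a = t + ∑ i, c i • v i := by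
  classical
  obtain ⟨d, v, L', T, hd, hprop, hvol, hT, hcov⟩ := iterated_gap htf hk hn hA hL hkn
  have hshift : ∀ m : Fin d → ℕ, ∑ i, m i • v i =
      ∑ i, ((m i : ℤ) - L' i) • v i + ∑ i, (L' i) • v i := by
    intro m
    rw [← Finset.sum_add_distrib]
    apply Finset.sum_congr rfl
    intro i _
    rw [sub_smul, natCast_zsmul, natCast_zsmul, sub_add_cancel]
  refine ⟨d, v, fun i => 2 * L' i + 1, T.image fun t => t - ∑ i, L' i • v i, hd,
    fun i => Nat.le_add_left 1 _, ?_, hvol, ?_, ?_⟩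
  · intro m n hm hn h
    rw [hshift m, hshift n] at h
    have h2 := hprop (fun i => (m i : ℤ) - L' i) (fun i => (n i : ℤ) - L' i)
      (fun i => by
        have h5 : m i < 2 * L' i + 1 := hm i
        rw [abs_le]; constructor <;> omega)
      (fun i => by
        have h5 : n i < 2 * L' i + 1 := hn i
        rw [abs_le]; constructor <;> omega)
      (add_right_cancel h)
    funext i
    have h3 : (m i : ℤ) - L' i = (n i : ℤ) - L' i := congrFun h2 i
    omega
  · refine le_trans ?_ hT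
    exact_mod_cast Finset.card_image_le
  · intro a ha
    obtain ⟨t, ht, c, hc, e⟩ := hcov a ha
    refine ⟨t - ∑ i, L' i • v i, Finset.mem_image_of_mem _ ht,
      fun i => (c i + L' i).toNat, ?_, ?_⟩
    · intro i
      have h5 := abs_le.1 (hc i)
      show (c i + L' i).toNat < 2 * L' i + 1
      omega
    · rw [hshift fun i => (c i + L' i).toNat, e]
      have h4 : ∀ i, (((c i + L' i).toNat : ℤ) - L' i) = c i := by
        intro i
        have h5 := abs_le.1 (hc i)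
        omega
      have h6 : ∑ i, (((c i + L' i).toNat : ℤ) - L' i) • v i = ∑ i, c i • v i :=
        Finset.sum_congr rfl fun i _ => by rw [h4 i]
      rw [h6]
      generalize ∑ i, c i • v i = p
      generalize ∑ i, L' i • v i = q
      abel

end Pool.Agent.V1121.PF
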