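import Pool.Agent.V1121.PF.Quot
import Pool.Agent.V1121.PF.IterGap
set_option autoImplicit false

/-! Freiman-Ruzsa theorems with proper coset progressions in arbitrary abelian groups. -/

namespace Pool.Agent.V1121.PF

open Finset H112 Pool.Agent.TH513.IS
open scoped Pointwise

/-- the conclusion: `A` is covered by at most `b` translates of the proper coset progression
`H + {∑ c_i v_i : |c_i| ≤ M_i}` with at most `|A|` elements -/
def Concl {G : Type*} [AddCommGroup G] (A : Finset G) (d : ℕ) (b : ℝ) : Prop :=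
  ∃ (v : Fin d → G) (M : Fin d → ℕ) (H : AddSubgroup G) (T : Finset G),
    Finite H ∧
    (∀ a b : Fin d → ℤ, (∀ i, |a i| ≤ M i) → (∀ i, |b i| ≤ M i) →
      ∑ i, a i • v i - ∑ i, b i • v i ∈ H → a = b) ∧
    (∏ i, (2 * M i + 1)) * Nat.card H ≤ A.card ∧
    (T.card : ℝ) ≤ b ∧
    ∀ a ∈ A, ∃ t ∈ T, ∃ c : Fin d → ℤ, (∀ i, |c i| ≤ M i) ∧
      ∃ h ∈ H, a = t + ∑ i, c i • v i + h

theorem Concl.mono {G : Type*} [AddCommGroup G] {A : Finset G} {d : ℕ} {b b' : ℝ}
    (h : Concl A d b) (hb : b ≤ b') : Concl A d b' := by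
  obtain ⟨v, M, H, T, h1, h2, h3, h4, h5⟩ := h
  exact ⟨v, M, H, T, h1, h2, h3, h4.trans hb, h5⟩

theorem Concl.map {G G' : Type*} [AddCommGroup G] [AddCommGroup G'] [DecidableEq G']
    (f : G →+ G') (hf : Function.Injective f) {A : Finset G} {A' : Finset G'}
    (hA : A.image f = A') {d : ℕ} {b : ℝ} (h : Concl A d b) : Concl A' d b := by
  classical
  obtain ⟨v, M, H, T, h1, h2, h3, h4, h5⟩ := h
  have hsum : ∀ c : Fin d → ℤ, ∑ i, c i • f (v i) = f (∑ i, c i • v i) := by
    intro c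
    rw [map_sum]
    simp only [map_zsmul]
  have hcard : A'.card = A.card := by
    rw [← hA, Finset.card_image_of_injective _ hf]
  refine ⟨fun i => f (v i), M, H.map f, T.image f, ?_, ?_, ?_, ?_, ?_⟩
  · have : (H.map f : Set G').Finite := by
      rw [AddSubgroup.coe_map]
      exact (Set.toFinite (H : Set G)).image _
    exact this.to_subtype
  · intro a b ha hb hab
    rw [hsum, hsum, ← map_sub] at hab
    obtain ⟨y, hy, e⟩ := hab
    rw [hf e] at hy
    exact h2 a b ha hb hy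
  · have h6 : Nat.card (H.map f) = Nat.card H :=
      Nat.card_congr (H.equivMapOfInjective f hf).toEquiv.symm
    rw [h6, hcard]
    exact h3
  · refine le_trans ?_ h4
    exact_mod_cast Finset.card_image_le
  · intro a ha
    rw [← hA] at ha
    obtain ⟨a', ha', rfl⟩ := Finset.mem_image.1 ha
    obtain ⟨t, ht, c, hc, h, hh, e⟩ := h5 a' ha'
    refine ⟨f t, Finset.mem_image_of_mem _ ht, c, hc, f h, ⟨h, hh, rfl⟩, ?_⟩
    rw [hsum, e, map_add, map_add]

/-- Final geometric step, proper coset progressions. -/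
theorem coset_gap_final {G : Type*} [AddCommGroup G] (S : Set (G →+ UnitAddCircle))
    (hfin : (bohr S (1 / 6)).Finite)
    {A : Finset G} (hA : A.Nonempty) {V : ℝ} (hV : 1 ≤ V)
    (hsize : ((bohr S (1 / 6)).ncard : ℝ) ≤ V * A.card)
    {ρ : ℝ} (hρ0 : 0 < ρ) (hρ : ρ ≤ 1 / 12) {X : Finset G}
    (hX : ∀ a ∈ A, ∃ x ∈ X, a - x ∈ bohr S ρ)
    {m : ℕ} (N : Seminorm ℝ (Fin m → ℝ)) (ψ : (Fin m → ℤ) →+ G) (hN : ∀ x, N x = 0 → x = 0)
    (h1 : ∀ c : Fin m → ℤ, N (fun i => (c i : ℝ)) < 1 / 2 → ∀ r : ℝ, 0 ≤ r →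
        (ψ c ∈ bohr S r ↔ c ∈ LL N r))
    (h2 : ∀ x ∈ bohr S ρ, ∃ c ∈ LL N ρ, x - ψ c ∈ ann S) :
    ∃ d : ℕ, d ≤ max m 1 ∧
      Concl A d (X.card * (6 * V * (4 * m + 1) ^ m * (12 * m ^ 3) ^ m)) := by
  classical
  haveI hannfin : Finite (ann S) := cover_ann_finite S hfin
  have hAc : 0 < A.card := hA.card_pos
  have hp1 : (1 : ℝ) ≤ (4 * m + 1) ^ m := one_le_pow₀ (by
    have : (0:ℝ) ≤ m := by positivity
    linarith)
  have hp2 : (1 : ℝ) ≤ (12 * (m : ℝ) ^ 3) ^ m := by
    have := gap_pow_le (Nat.zero_le m)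
    simpa using this
  have hp3 : (1 : ℝ) ≤ (4 * m + 1) ^ m * (12 * (m : ℝ) ^ 3) ^ m := by nlinarith
  rcases lt_or_ge A.card (Nat.card (ann S)) with hcase | hcase
  · obtain ⟨l, g, H₁, T', hfin1, hle, hvol, hT', hcov, hprop⟩ :=
      big_subgroup_proper (ann S) hannfin hAc hcase
    have hLfin : ∀ r, r ≤ ρ → (LL N r).Finite :=
      fun r hr => cover_LL_finite S hfin hρ N ψ hN h1 hr
    set LF := (hLfin ρ le_rfl).toFinset with hLF
    set T : Finset G := (X ×ˢ (LF ×ˢ T')).image (fun p => p.1 + ψ p.2.1 + p.2.2) with hT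
    refine ⟨1, le_max_right _ _, fun _ => g, fun _ => l, H₁, T, hfin1, ?_, ?_, ?_, ?_⟩
    · intro a b ha hb hab
      simp only [Finset.univ_unique, Fin.default_eq_zero, Fin.isValue,
        Finset.sum_singleton] at hab
      have := hprop (a 0) (b 0) (ha 0) (hb 0) hab
      funext i
      rw [Subsingleton.elim i 0]
      exact this
    · simpa using hvol
    · have hTc : T.card ≤ X.card * ((LL N ρ).ncard * T'.card) := by
        rw [hT]
        refine Finset.card_image_le.trans ?_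
        rw [Finset.card_product, Finset.card_product,
          Set.ncard_eq_toFinset_card _ (hLfin ρ le_rfl)]
      have h3 : ((LL N ρ).ncard : ℝ) * Nat.card (ann S) ≤ V * A.card := by
        have := cover_card S hρ N ψ hN h1 h2 hρ0.le le_rfl
        have h4 : (bohr S ρ).ncard ≤ (bohr S (1/6)).ncard :=
          Set.ncard_le_ncard (cover_bohr_mono S (by linarith)) hfin
        calc ((LL N ρ).ncard : ℝ) * Nat.card (ann S) = ((bohr S ρ).ncard : ℝ) := by
              rw [this]; push_cast; ring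
          _ ≤ ((bohr S (1/6)).ncard : ℝ) := by exact_mod_cast h4
          _ ≤ _ := hsize
      have hA0 : (0:ℝ) < A.card := by exact_mod_cast hAc
      have h5 : ((LL N ρ).ncard : ℝ) * T'.card ≤ 6 * V := by
        have h6 : ((LL N ρ).ncard : ℝ) * T'.card * A.card ≤ 6 * V * A.card := by
          calc ((LL N ρ).ncard : ℝ) * T'.card * A.card =
                ((LL N ρ).ncard : ℝ) * (T'.card * A.card) := by ring
            _ ≤ ((LL N ρ).ncard : ℝ) * (6 * Nat.card (ann S)) :=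
                mul_le_mul_of_nonneg_left hT' (by positivity)
            _ = 6 * (((LL N ρ).ncard : ℝ) * Nat.card (ann S)) := by ring
            _ ≤ 6 * (V * A.card) := by linarith
            _ = _ := by ring
        exact le_of_mul_le_mul_right h6 hA0
      calc (T.card : ℝ) ≤ X.card * (((LL N ρ).ncard : ℝ) * T'.card) := by exact_mod_cast hTc
        _ ≤ X.card * (6 * V) := mul_le_mul_of_nonneg_left h5 (by positivity)
        _ ≤ X.card * (6 * V * ((4 * m + 1) ^ m * (12 * (m : ℝ) ^ 3) ^ m)) := by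
            apply mul_le_mul_of_nonneg_left _ (by positivity)
            exact le_mul_of_one_le_right (by linarith) hp3
        _ = _ := by ring
    · intro a ha
      obtain ⟨x, hx, hax⟩ := hX a ha
      obtain ⟨c, hc, hh⟩ := h2 _ hax
      obtain ⟨t, ht, z, hz, h', hh', heq⟩ := hcov _ hh
      refine ⟨x + ψ c + t, ?_, fun _ => z, fun _ => hz, h', hh', ?_⟩
      · rw [hT, Finset.mem_image]
        refine ⟨(x, c, t), ?_, rfl⟩
        simp only [Finset.mem_product, hLF, Set.Finite.mem_toFinset]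
        exact ⟨hx, hc, ht⟩
      · simp only [Finset.univ_unique, Finset.sum_const, Finset.card_singleton, one_smul]
        have : a = x + ψ c + (a - x - ψ c) := by abel
        rw [this, heq]
        abel
  · obtain ⟨k, v, L, T, hk, hprop, hprod, hT, hcov⟩ :=
      coset_case_small S hfin hV hsize hρ0 hρ hX N ψ hN h1 h2 hcase
    refine ⟨k, hk.trans (le_max_left _ _), v, L, ann S, T, hannfin, hprop, hprod, ?_, hcov⟩
    refine hT.trans ?_
    apply mul_le_mul_of_nonneg_left _ (by positivity)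
    have h3 : (2 : ℝ) * V ≤ 6 * V := by linarith
    have h4 : (0 : ℝ) ≤ (4 * m + 1) ^ m := by positivity
    have h5 : (0 : ℝ) ≤ (12 * (m : ℝ) ^ 3) ^ m := by positivity
    exact mul_le_mul_of_nonneg_right (mul_le_mul_of_nonneg_right h3 h4) h5

/-- the numerical estimate -/
theorem coset_numeric {κ : ℝ} (hκ69 : 0.69 < κ) {m : ℕ} (hm : (m : ℝ) ≤ 300 * κ) {x V : ℝ}
    (hx : 0 ≤ x) (hV : 1 ≤ V) (hxV : x * V ≤ Real.exp (8000 * κ * (1 + Real.log (1 + κ)))) :
    x * (6 * V * (4 * m + 1) ^ m * (12 * (m : ℝ) ^ 3) ^ m) ≤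
      Real.exp (17000 * κ * (1 + Real.log (1 + κ))) := by
  have hlogκ : 0 ≤ Real.log (1 + κ) := Real.log_nonneg (by linarith)
  have h3 : ((4 * (m : ℝ) + 1)) ^ m ≤
      Real.exp ((300 * κ) * (8 * (1 + Real.log (1 + κ)))) :=
    pow_le_exp (by positivity) (log_4m_le hκ69 hm) hm (by positivity)
  have h4 : (12 * (m : ℝ) ^ 3) ^ m ≤
      Real.exp ((300 * κ) * (20 * (1 + Real.log (1 + κ)))) := by
    rcases Nat.eq_zero_or_pos m with h0 | hpos
    · subst h0
      rw [pow_zero]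
      exact Real.one_le_exp (by positivity)
    · have hm1 : (0 : ℝ) < m := by exact_mod_cast hpos
      exact pow_le_exp (by positivity) (log_12m_le hκ69 hm hpos) hm (by positivity)
  calc x * (6 * V * (4 * m + 1) ^ m * (12 * (m : ℝ) ^ 3) ^ m)
      = (x * V) * (6 * ((4 * m + 1) ^ m * (12 * (m : ℝ) ^ 3) ^ m)) := by ring
    _ ≤ Real.exp (8000 * κ * (1 + Real.log (1 + κ))) *
          (Real.exp (3 * κ) * (Real.exp ((300 * κ) * (8 * (1 + Real.log (1 + κ)))) *
            Real.exp ((300 * κ) * (20 * (1 + Real.log (1 + κ)))))) := by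
        apply mul_le_mul hxV _ (by positivity) (by positivity)
        apply mul_le_mul (six_le_exp hκ69) _ (by positivity) (by positivity)
        exact mul_le_mul h3 h4 (by positivity) (by positivity)
    _ = Real.exp (8000 * κ * (1 + Real.log (1 + κ)) +
          (3 * κ + ((300 * κ) * (8 * (1 + Real.log (1 + κ))) +
            (300 * κ) * (20 * (1 + Real.log (1 + κ)))))) := by
        rw [← Real.exp_add, ← Real.exp_add, ← Real.exp_add]
    _ ≤ Real.exp (17000 * κ * (1 + Real.log (1 + κ))) := by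
        apply Real.exp_le_exp.2
        have h10 : 0 ≤ κ * Real.log (1 + κ) := mul_nonneg (by linarith) hlogκ
        nlinarith

/-- the structure attached to the scale found by the pigeonhole principle -/
theorem scale_coset_fg {G : Type*} [AddCommGroup G] [AddGroup.FG G] [DecidableEq G]
    {L K : ℝ} {J : ℕ}
    {A : Finset G} (hA : A.Nonempty) (hJ : 1 ≤ J)
    (hL : ((sm A (2 ^ J)).card : ℝ) ≤ L * A.card) (hL1 : 1 ≤ L) (hK1 : 1 ≤ K)
    (hKL : L ≤ K ^ J) :
    ∃ d : ℕ, (d : ℝ) ≤ 300 * Real.log (2 * K) ∧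
      Concl A d (L * (2 * K) ^ (17000 * (1 + Real.log (1 + Real.log (2 * K))))) := by
  classical
  have hK0 : 0 < K := by linarith
  have hApos : (0 : ℝ) < A.card := by exact_mod_cast hA.card_pos
  obtain ⟨i, hi, hiK⟩ := exists_scale hA hK0
    (hL.trans (mul_le_mul_of_nonneg_right hKL hApos.le)) hJ
  obtain ⟨B, hB⟩ : ∃ B, B = sm A (2 ^ i) := ⟨_, rfl⟩
  have hBne : B.Nonempty := by rw [hB]; exact sm_nonempty hA _
  have hBB : ((B + B).card : ℝ) ≤ K * B.card := by
    have h1 : (B + B).card ≤ (sm A (2 ^ (i + 1))).card := by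
      apply Finset.card_le_card
      have e : 2 ^ (i + 1) = 2 ^ i + 2 ^ i := by ring
      rw [hB, e]
      exact sm_add_subset
    have h2 : ((B + B).card : ℝ) ≤ (sm A (2 ^ (i + 1))).card := by exact_mod_cast h1
    rw [← hB] at hiK
    exact h2.trans hiK
  have hBL : (B.card : ℝ) ≤ L * A.card := by
    have h1 : B.card ≤ (sm A (2 ^ J)).card := by
      rw [hB]
      exact sm_card_mono hA (Nat.pow_le_pow_right (by norm_num) hi.le)
    have h2 : (B.card : ℝ) ≤ (sm A (2 ^ J)).card := by exact_mod_cast h1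
    exact h2.trans hL
  obtain ⟨κ, hκ⟩ : ∃ κ : ℝ, κ = Real.log (2 * K) := ⟨_, rfl⟩
  have hκlog2 : Real.log 2 ≤ κ := by
    rw [hκ]; exact Real.log_le_log (by norm_num) (by linarith)
  have hκ69 : (0.69 : ℝ) < κ := lt_of_lt_of_le log_two_gt hκlog2
  obtain ⟨S, X, V, ρ, m, N, ψ, hfin, hV1, hsize, hρ0, hρ12, hX, hN, h1, h2, hm, hXV⟩ :=
    structure_thm hBne hBB hK1 hκ
  obtain ⟨a₀, ha₀⟩ := hA
  obtain ⟨k, hk⟩ : ∃ k, 2 ^ i = k + 1 := ⟨2 ^ i - 1, by
    have := Nat.one_le_two_pow (n := i)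
    omega⟩
  -- `A` is covered as well
  have hX' : ∀ a ∈ A, ∃ x ∈ X.image (fun x => x - k • a₀), a - x ∈ bohr S ρ := by
    intro a ha
    have h3 : a + k • a₀ ∈ B := by
      rw [hB, hk, add_comm k 1]
      exact add_mem_sm (sm_one_mem ha) (nsmul_mem_sm ha₀ k)
    obtain ⟨x, hx, hxa⟩ := hX _ h3
    refine ⟨x - k • a₀, Finset.mem_image_of_mem _ hx, ?_⟩
    have e : a - (x - k • a₀) = a + k • a₀ - x := by abel
    rw [e]
    exact hxa
  have hsize' : ((bohr S (1 / 6)).ncard : ℝ) ≤ (V * L) * A.card := by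
    calc ((bohr S (1 / 6)).ncard : ℝ) ≤ V * B.card := hsize
      _ ≤ V * (L * A.card) := mul_le_mul_of_nonneg_left hBL (by linarith)
      _ = _ := by ring
  have hVL : 1 ≤ V * L := by nlinarith
  obtain ⟨d, hd, hconcl⟩ :=
    coset_gap_final S hfin ⟨a₀, ha₀⟩ hVL hsize' hρ0 hρ12 hX' N ψ hN h1 h2
  refine ⟨d, ?_, hconcl.mono ?_⟩
  · rw [← hκ]
    have : (d : ℝ) ≤ max (m : ℝ) 1 := by exact_mod_cast hd
    refine this.trans (max_le hm (by linarith))
  · rw [← exp_eq_rpow hK1, ← hκ]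
    have hV0 : 0 ≤ V := by linarith
    have hL0 : 0 ≤ L := by linarith
    have hXc : ((X.image (fun x => x - k • a₀)).card : ℝ) ≤ X.card := by
      exact_mod_cast Finset.card_image_le
    have h5 := coset_numeric hκ69 hm (Nat.cast_nonneg X.card) hV1 hXV
    calc ((X.image (fun x => x - k • a₀)).card : ℝ) *
          (6 * (V * L) * (4 * m + 1) ^ m * (12 * (m : ℝ) ^ 3) ^ m)
        ≤ X.card * (6 * (V * L) * (4 * m + 1) ^ m * (12 * (m : ℝ) ^ 3) ^ m) :=
          mul_le_mul_of_nonneg_right hXc (by positivity)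
      _ = L * (X.card * (6 * V * (4 * m + 1) ^ m * (12 * (m : ℝ) ^ 3) ^ m)) := by ring
      _ ≤ L * Real.exp (17000 * κ * (1 + Real.log (1 + κ))) :=
          mul_le_mul_of_nonneg_left h5 hL0

/-- the same in an arbitrary abelian group -/
theorem scale_coset {G : Type*} [AddCommGroup G] [DecidableEq G] {L K : ℝ} {J : ℕ}
    {A : Finset G} (hA : A.Nonempty) (hJ : 1 ≤ J)
    (hL : ((sm A (2 ^ J)).card : ℝ) ≤ L * A.card) (hL1 : 1 ≤ L) (hK1 : 1 ≤ K)
    (hKL : L ≤ K ^ J) :
    ∃ d : ℕ, (d : ℝ) ≤ 300 * Real.log (2 * K) ∧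
      Concl A d (L * (2 * K) ^ (17000 * (1 + Real.log (1 + Real.log (2 * K))))) := by
  classical
  obtain ⟨Γ, hΓ⟩ : ∃ Γ : AddSubgroup G, Γ = AddSubgroup.closure (A : Set G) := ⟨_, rfl⟩
  obtain ⟨A', hA'⟩ := exists_model A Γ (fun a ha => by
    rw [hΓ]; exact AddSubgroup.subset_closure ha)
  have hinj : Function.Injective Γ.subtype := Γ.subtype_injective
  have : AddGroup.FG Γ := by
    rw [AddGroup.fg_iff_addSubgroup_fg]
    exact ⟨A, hΓ.symm⟩
  have hA'ne : A'.Nonempty := by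
    rw [← hA'] at hA; exact Finset.image_nonempty.1 hA
  have hcard : A'.card = A.card := by
    rw [← hA', Finset.card_image_of_injective _ hinj]
  have hcard2 : (sm A' (2 ^ J)).card = (sm A (2 ^ J)).card := by
    rw [← hA', ← sm_image, Finset.card_image_of_injective _ hinj]
  have hL' : ((sm A' (2 ^ J)).card : ℝ) ≤ L * A'.card := by rw [hcard2, hcard]; exact hL
  obtain ⟨d, hd, h⟩ := scale_coset_fg hA'ne hJ hL' hL1 hK1 hKL
  exact ⟨d, hd, h.map Γ.subtype hinj hA'⟩

theorem one_le_of_card {G : Type*} [AddCommGroup G] [DecidableEq G] {n : ℕ} (hn : 1 ≤ n) {L : ℝ}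
    {A : Finset G} (hA : A.Nonempty) (hL : ((sm A n).card : ℝ) ≤ L * A.card) : 1 ≤ L := by
  have hApos : (0 : ℝ) < A.card := by exact_mod_cast hA.card_pos
  have h1 : A.card ≤ (sm A n).card := by
    have := sm_card_mono hA hn
    rwa [sm_one] at this
  have h2 : (A.card : ℝ) ≤ (sm A n).card := by exact_mod_cast h1
  nlinarith

/-- **Freiman-Ruzsa theorem for iterated sumsets, with proper coset progressions.** -/
theorem iterated_coset {G : Type*} [AddCommGroup G] [DecidableEq G] {k n : ℕ} (hk : 1 ≤ k)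
    (hn : 2 ≤ n) {L : ℝ} {A : Finset G} (hA : A.Nonempty)
    (hL : ((sm A n).card : ℝ) ≤ L * A.card) (hkn : Real.log (2 * L) ≤ (n : ℝ) ^ k) :
    ∃ d : ℕ, (d : ℝ) ≤ 420 * (1 + Real.log (2 * L) / Real.log n) ∧
      Concl A d ((2 * L) ^ (113000 * k)) := by
  classical
  have hL1 : 1 ≤ L := one_le_of_card (by omega) hA hL
  obtain ⟨J, hJ⟩ : ∃ J, J = Nat.log 2 n := ⟨_, rfl⟩
  have hJ1 : 1 ≤ J := by
    rw [hJ]
    exact Nat.log_pos (by norm_num) hn
  have hJR : (1 : ℝ) ≤ J := by exact_mod_cast hJ1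
  have hL' : ((sm A (2 ^ J)).card : ℝ) ≤ L * A.card := by
    have h1 : (sm A (2 ^ J)).card ≤ (sm A n).card := by
      apply sm_card_mono hA
      rw [hJ]
      exact Nat.pow_log_le_self 2 (by omega)
    have h2 : ((sm A (2 ^ J)).card : ℝ) ≤ (sm A n).card := by exact_mod_cast h1
    exact h2.trans hL
  obtain ⟨K, hK⟩ : ∃ K : ℝ, K = L ^ (1 / (J : ℝ)) := ⟨_, rfl⟩
  have hK1 : 1 ≤ K := by
    rw [hK]
    exact Real.one_le_rpow hL1 (by positivity)
  have hK0 : 0 < K := by linarith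
  have hKJ : K ^ J = L := by
    rw [hK, ← Real.rpow_natCast, ← Real.rpow_mul (by linarith)]
    have : 1 / (J : ℝ) * J = 1 := by field_simp
    rw [this, Real.rpow_one]
  obtain ⟨d, hd, hconcl⟩ := scale_coset hA hJ1 hL' hL1 hK1 hKJ.ge
  have hκ' : Real.log (2 * K) = Real.log 2 + Real.log L / (Nat.log 2 n : ℝ) := by
    rw [Real.log_mul (by norm_num) (by linarith), hK, Real.log_rpow (by linarith), ← hJ]
    ring
  obtain ⟨hb1, hb2⟩ := kappa_bounds hk hn hL1 hκ' hkn
  refine ⟨d, hd.trans hb1, hconcl.mono ?_⟩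
  rw [← exp_eq_rpow hK1]
  have e1 : (2 * L) ^ (113000 * k) = Real.exp (113000 * k * Real.log (2 * L)) := by
    rw [← Real.exp_log (show (0 : ℝ) < (2 * L) ^ (113000 * k) by positivity), Real.log_pow]
    push_cast
    ring_nf
  rw [e1]
  have hlogL : 0 ≤ Real.log L := Real.log_nonneg hL1
  have hlog2L : 0 ≤ Real.log (2 * L) := Real.log_nonneg (by linarith)
  have hkl : 0 ≤ (k : ℝ) * Real.log (2 * L) := mul_nonneg (Nat.cast_nonneg k) hlog2L
  calc L * Real.exp (17000 * Real.log (2 * K) * (1 + Real.log (1 + Real.log (2 * K))))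
      = Real.exp (Real.log L + 17000 * Real.log (2 * K) *
          (1 + Real.log (1 + Real.log (2 * K)))) := by
        rw [Real.exp_add, Real.exp_log (by linarith)]
    _ ≤ _ := by
        apply Real.exp_le_exp.2
        have h5 : 17000 * Real.log (2 * K) * (1 + Real.log (1 + Real.log (2 * K))) =
            (17 / 13) * (13000 * Real.log (2 * K) * (1 + Real.log (1 + Real.log (2 * K)))) := by
          ring
        rw [h5]
        nlinarith [hb2, hlogL, hkl]

end Pool.Agent.V1121.PF
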