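import Pool.Agent.H112R2.FinalGap
set_option autoImplicit false

/-! Version of `H112.gap_final` with a free size parameter. -/

namespace Pool.Agent.V1121.PF

open Finset H112
open scoped Pointwise

variable {G : Type*} [AddCommGroup G]

/-- Final geometric step, GAP version. -/
theorem gap_final_n (S : Set (G →+ UnitAddCircle)) (hfin : (bohr S (1 / 6)).Finite)
    {A : Finset G} {n : ℕ} (hn : 1 ≤ n) {V : ℝ} (hV : 1 ≤ V)
    (hsize : ((bohr S (1 / 6)).ncard : ℝ) ≤ V * n)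
    {ρ : ℝ} (hρ0 : 0 < ρ) (hρ : ρ ≤ 1 / 12) {X : Finset G}
    (hX : ∀ a ∈ A, ∃ x ∈ X, a - x ∈ bohr S ρ)
    {m : ℕ} (N : Seminorm ℝ (Fin m → ℝ)) (ψ : (Fin m → ℤ) →+ G) (hN : ∀ x, N x = 0 → x = 0)
    (h1 : ∀ c : Fin m → ℤ, N (fun i => (c i : ℝ)) < 1 / 2 → ∀ r : ℝ, 0 ≤ r →
        (ψ c ∈ bohr S r ↔ c ∈ LL N r))
    (h2 : ∀ x ∈ bohr S ρ, ∃ c ∈ LL N ρ, x - ψ c ∈ ann S) (htriv : ann S = ⊥) :
    ∃ (k : ℕ) (v : Fin k → G) (L : Fin k → ℕ) (T : Finset G), k ≤ m ∧
      (∀ a b : Fin k → ℤ, (∀ i, |a i| ≤ L i) → (∀ i, |b i| ≤ L i) →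
        ∑ i, a i • v i = ∑ i, b i • v i → a = b) ∧
      ∏ i, (2 * L i + 1) ≤ n ∧
      (T.card : ℝ) ≤ X.card * (V * (4 * m + 1) ^ m * (12 * m ^ 3) ^ m) ∧
      ∀ a ∈ A, ∃ t ∈ T, ∃ c : Fin k → ℤ, (∀ i, |c i| ≤ L i) ∧ a = t + ∑ i, c i • v i := by
  classical
  have hinj := gap_inj S N ψ hN h1
  have hLfin := gap_finite S hfin N ψ hN h1
  have hfinr : ∀ r : ℝ, r ≤ 1 / 6 → (LL N r).Finite := fun r hr =>
    hLfin.subset (gap_LL_mono N hr)
  -- choice of the scale
  have hex := gap_exists_scale N hN hρ0 (hfinr ρ (by linarith)) (n := n) hn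
  set j := Nat.find hex with hjdef
  have hj : (LL N (ρ / 2 ^ j)).ncard ≤ n := Nat.find_spec hex
  set r : ℝ := ρ / 2 ^ j with hrdef
  have hr0 : 0 ≤ r := by positivity
  have hrρ : r ≤ ρ := div_le_self hρ0.le (one_le_pow₀ (by norm_num))
  have hr6 : r ≤ 1 / 6 := by linarith
  obtain ⟨k, v', L, hkm, hlin, hgap, hcard⟩ := discrete_john N hr0 (hfinr r hr6)
  -- the linear map
  have hψ : ∀ a : Fin k → ℤ, ψ (∑ i, a i • v' i) = ∑ i, a i • ψ (v' i) := by
    intro a
    rw [map_sum]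
    exact Finset.sum_congr rfl fun i _ => map_zsmul ψ _ _
  have hlin' : ∀ a b : Fin k → ℤ, ∑ i, a i • v' i = ∑ i, b i • v' i → a = b := by
    intro a b hab
    have h0 : ∑ i, (a i - b i) • v' i = 0 := by
      simp only [sub_smul, Finset.sum_sub_distrib]
      rw [hab, sub_self]
    have := Fintype.linearIndependent_iff.1 hlin (fun i => a i - b i) h0
    funext i
    exact sub_eq_zero.1 (this i)
  have hproper : ∀ a b : Fin k → ℤ, (∀ i, |a i| ≤ L i) → (∀ i, |b i| ≤ L i) →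
        ∑ i, a i • ψ (v' i) = ∑ i, b i • ψ (v' i) → a = b := by
    intro a b ha hb hab
    rw [← hψ, ← hψ] at hab
    exact hlin' a b (hinj (gap_LL_mono N hr6 (hgap a ha)) (gap_LL_mono N hr6 (hgap b hb)) hab)
  -- number of elements of the progression
  have hprod : ∏ i, (2 * L i + 1) ≤ n := by
    rw [← gap_card_box]
    refine le_trans ?_ hj
    have himg : ((fun a : Fin k → ℤ => ∑ i, a i • v' i) '' (gapBox L : Set (Fin k → ℤ)))
        ⊆ LL N r := by
      rintro _ ⟨a, ha, rfl⟩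
      exact hgap a (gap_mem_box.1 ha)
    have hc := Set.ncard_le_ncard himg (hfinr r hr6)
    rw [Set.ncard_image_of_injective _ (fun a b h => hlin' a b h), Set.ncard_coe_finset] at hc
    exact hc
  -- the half progression
  set f : (Fin k → ℤ) → G := fun a => ∑ i, a i • ψ (v' i) with hf
  set L' : Fin k → ℕ := fun i => L i / 2 with hL'
  set Q : Finset G := (gapBox L').image f with hQ
  have hL'L : ∀ i, L' i ≤ L i := fun i => Nat.div_le_self _ _
  have hQcard : Q.card = ∏ i, (2 * L' i + 1) := by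
    rw [← gap_card_box, hQ, Finset.card_image_of_injOn]
    intro a ha b hb hab
    refine hproper a b (fun i => ?_) (fun i => ?_) hab
    · exact (gap_mem_box.1 ha i).trans (by exact_mod_cast hL'L i)
    · exact (gap_mem_box.1 hb i).trans (by exact_mod_cast hL'L i)
  have hQpos : Q.Nonempty := by
    rw [← Finset.card_pos, hQcard]
    exact Finset.prod_pos fun i _ => by omega
  have hQge : (∏ i, (2 * L i + 1) : ℕ) ≤ 3 ^ k * Q.card := by
    rw [hQcard]
    calc (∏ i, (2 * L i + 1) : ℕ) ≤ ∏ i, (3 * (2 * L' i + 1)) :=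
          Finset.prod_le_prod' fun i _ => by
            have : L i / 2 = L' i := rfl
            omega
      _ = 3 ^ k * ∏ i, (2 * L' i + 1) := by
          rw [Finset.prod_mul_distrib, Finset.prod_const, Finset.card_univ, Fintype.card_fin]
  have hQmem : ∀ q ∈ Q, ∃ c ∈ LL N r, ψ c = q := by
    intro q hq
    obtain ⟨a, ha, rfl⟩ := Finset.mem_image.1 hq
    refine ⟨∑ i, a i • v' i, hgap a fun i => ?_, hψ a⟩
    exact (gap_mem_box.1 ha i).trans (by exact_mod_cast hL'L i)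
  -- the Bohr set
  have hBfin : (bohr S ρ).Finite :=
    hfin.subset fun x hx γ hγ => (hx γ hγ).trans (by linarith)
  set B : Finset G := hBfin.toFinset with hB
  have hBmem : ∀ b ∈ B, ∃ c ∈ LL N ρ, ψ c = b := by
    intro b hb
    obtain ⟨c, hc, hbc⟩ := h2 b (by simpa [hB] using hb)
    rw [htriv, AddSubgroup.mem_bot, sub_eq_zero] at hbc
    exact ⟨c, hc, hbc.symm⟩
  -- the sumset
  have hBQ : ∀ z ∈ B + Q, ∃ c ∈ LL N (ρ + r), ψ c = z := by
    intro z hz
    obtain ⟨b, hb, q, hq, rfl⟩ := Finset.mem_add.1 hz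
    obtain ⟨c, hc, rfl⟩ := hBmem b hb
    obtain ⟨d, hd, rfl⟩ := hQmem q hq
    exact ⟨c + d, gap_LL_add N hc hd, map_add ψ c d⟩
  have hBQle : ∀ s : ℝ, ρ + r ≤ s → s ≤ 1 / 6 → (B + Q).card ≤ (LL N s).ncard := by
    intro s hs hs6
    have hsub : ((B + Q : Finset G) : Set G) ⊆ ψ '' LL N s := by
      intro z hz
      obtain ⟨c, hc, rfl⟩ := hBQ z hz
      exact ⟨c, gap_LL_mono N hs hc, rfl⟩
    calc (B + Q).card = ((B + Q : Finset G) : Set G).ncard := (Set.ncard_coe_finset _).symm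
      _ ≤ (ψ '' LL N s).ncard := Set.ncard_le_ncard hsub ((hfinr s hs6).image _)
      _ ≤ (LL N s).ncard := Set.ncard_image_le (hfinr s hs6)
  have hcardLL : ∀ s : ℝ, s ≤ 1 / 6 → (LL N s).ncard ≤ (bohr S (1 / 6)).ncard := by
    intro s hs
    calc (LL N s).ncard = (ψ '' LL N s).ncard :=
          (Set.InjOn.ncard_image (hinj.mono (gap_LL_mono N hs))).symm
      _ ≤ (bohr S (1 / 6)).ncard := by
          refine Set.ncard_le_ncard ?_ hfin
          rintro _ ⟨c, hc, rfl⟩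
          exact gap_map_mem S N ψ h1 (by norm_num) le_rfl (gap_LL_mono N hs hc)
  -- size bounds
  have hkey1 : ((LL N r).ncard : ℝ) ≤ (12 * (m : ℝ) ^ 3) ^ m * Q.card := by
    have hc1 : ((LL N r).ncard : ℝ) ≤ (4 * (k : ℝ) ^ 3) ^ k * (3 ^ k * Q.card) := by
      calc ((LL N r).ncard : ℝ) ≤ (((4 * k ^ 3) ^ k * ∏ i, (2 * L i + 1) : ℕ) : ℝ) := by
            exact_mod_cast hcard
        _ ≤ (((4 * k ^ 3) ^ k * (3 ^ k * Q.card) : ℕ) : ℝ) := by
            exact_mod_cast Nat.mul_le_mul_left _ hQge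
        _ = (4 * (k : ℝ) ^ 3) ^ k * (3 ^ k * Q.card) := by push_cast; ring
    calc ((LL N r).ncard : ℝ) ≤ (4 * (k : ℝ) ^ 3) ^ k * (3 ^ k * Q.card) := hc1
      _ = (12 * (k : ℝ) ^ 3) ^ k * Q.card := by
          rw [← mul_assoc, ← mul_pow]
          ring_nf
      _ ≤ (12 * (m : ℝ) ^ 3) ^ m * Q.card := by
          have := gap_pow_le hkm
          gcongr
  have hdbl : ((LL N (2 * r)).ncard : ℝ) ≤ (4 * (m : ℝ) + 1) ^ m * (LL N r).ncard := by
    have h := doubling N (r := 2 * r) (by positivity) (hfinr _ (by linarith))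
    rw [mul_div_cancel_left₀ r (two_ne_zero)] at h
    exact_mod_cast h
  have hM1 : (0 : ℝ) ≤ (4 * (m : ℝ) + 1) ^ m := by positivity
  have hkey2 : ((LL N (2 * r)).ncard : ℝ) ≤
      (4 * (m : ℝ) + 1) ^ m * ((12 * (m : ℝ) ^ 3) ^ m * Q.card) :=
    hdbl.trans (mul_le_mul_of_nonneg_left hkey1 hM1)
  have hK : (((B + Q).card : ℕ) : ℝ) ≤
      (V * (4 * (m : ℝ) + 1) ^ m * (12 * (m : ℝ) ^ 3) ^ m) * Q.card := by
    rcases Nat.eq_zero_or_pos j with hj0 | hjpos
    · have hreq : r = ρ := by rw [hrdef, hj0, pow_zero, div_one]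
      have hb : (((B + Q).card : ℕ) : ℝ) ≤ (LL N (2 * r)).ncard := by
        exact_mod_cast hBQle (2 * r) (by rw [hreq]; linarith) (by rw [hreq]; linarith)
      have hnn : (0 : ℝ) ≤ (4 * (m : ℝ) + 1) ^ m * ((12 * (m : ℝ) ^ 3) ^ m * Q.card) := by
        positivity
      calc (((B + Q).card : ℕ) : ℝ)
          ≤ (4 * (m : ℝ) + 1) ^ m * ((12 * (m : ℝ) ^ 3) ^ m * Q.card) := hb.trans hkey2
        _ ≤ V * ((4 * (m : ℝ) + 1) ^ m * ((12 * (m : ℝ) ^ 3) ^ m * Q.card)) :=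
            le_mul_of_one_le_left hnn hV
        _ = _ := by ring
    · have hlt : n < (LL N (2 * r)).ncard := by
        have hmin := Nat.find_min hex (m := j - 1) (by omega)
        rw [not_le] at hmin
        have : ρ / 2 ^ (j - 1) = 2 * r := by
          rw [hrdef]
          obtain ⟨i, hi⟩ : ∃ i, j = i + 1 := ⟨j - 1, by omega⟩
          rw [hi, Nat.add_sub_cancel, pow_succ]
          field_simp
        rwa [this] at hmin
      have hb : (((B + Q).card : ℕ) : ℝ) ≤ (bohr S (1 / 6)).ncard := by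
        exact_mod_cast (hBQle (1 / 6) (by linarith) le_rfl).trans (hcardLL (1 / 6) le_rfl)
      have hA' : (n : ℝ) ≤ (LL N (2 * r)).ncard := by exact_mod_cast hlt.le
      calc (((B + Q).card : ℕ) : ℝ) ≤ V * n := hb.trans hsize
        _ ≤ V * ((4 * (m : ℝ) + 1) ^ m * ((12 * (m : ℝ) ^ 3) ^ m * Q.card)) := by
            have := hA'.trans hkey2
            exact mul_le_mul_of_nonneg_left this (by linarith)
        _ = _ := by ring
  obtain ⟨Y, hYB, hYcard, hYcov⟩ := Finset.ruzsa_covering_add hQpos hK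
  refine ⟨k, fun i => ψ (v' i), L, X + Y, hkm, hproper, hprod, ?_, ?_⟩
  · calc (((X + Y).card : ℕ) : ℝ) ≤ X.card * Y.card := by
          exact_mod_cast Finset.card_add_le
      _ ≤ X.card * (V * (4 * m + 1) ^ m * (12 * m ^ 3) ^ m) := by gcongr
  · intro a ha
    obtain ⟨x, hx, hax⟩ := hX a ha
    have hB' : a - x ∈ B := by simpa [hB] using hax
    obtain ⟨y, hy, d, hd, hyd⟩ := Finset.mem_add.1 (hYcov hB')
    obtain ⟨q, hq, q', hq', hqq⟩ := Finset.mem_sub.1 hd
    obtain ⟨c, hc, rfl⟩ := Finset.mem_image.1 hq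
    obtain ⟨c', hc', rfl⟩ := Finset.mem_image.1 hq'
    refine ⟨x + y, Finset.add_mem_add hx hy, fun i => c i - c' i, fun i => ?_, ?_⟩
    · have h3 := gap_mem_box.1 hc i
      have h4 := gap_mem_box.1 hc' i
      have h5 : (L' i : ℤ) + L' i ≤ L i := by
        have : L i / 2 = L' i := rfl
        omega
      calc |c i - c' i| ≤ |c i| + |c' i| := abs_sub _ _
        _ ≤ L i := by linarith
    · have : ∑ i, (c i - c' i) • ψ (v' i) = f c - f c' := by
        simp only [hf, sub_smul, Finset.sum_sub_distrib]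
      rw [this, hqq]
      rw [add_assoc, hyd]
      abel

end Pool.Agent.V1121.PF
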