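import Pool.Agent.V1121.PF.GapN
set_option autoImplicit false

/-! Passing to the quotient by the annihilator. -/

namespace Pool.Agent.V1121.PF

open Finset H112
open scoped Pointwise

variable {G : Type*} [AddCommGroup G]

/-- characters of the quotient by the annihilator -/
def qchar (S : Set (G →+ UnitAddCircle)) : Set ((G ⧸ ann S) →+ UnitAddCircle) :=
  {γ | γ.comp (QuotientAddGroup.mk' (ann S)) ∈ S}

theorem qchar_exists (S : Set (G →+ UnitAddCircle)) {γ : G →+ UnitAddCircle} (hγ : γ ∈ S) :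
    ∃ γ' ∈ qchar S, ∀ x : G, γ' (QuotientAddGroup.mk' (ann S) x) = γ x := by
  refine ⟨QuotientAddGroup.lift (ann S) γ (fun x hx => hx γ hγ), ?_, fun x => rfl⟩
  have : (QuotientAddGroup.lift (ann S) γ (fun x hx => hx γ hγ)).comp
      (QuotientAddGroup.mk' (ann S)) = γ := by
    ext x; rfl
  show (QuotientAddGroup.lift (ann S) γ (fun x hx => hx γ hγ)).comp
      (QuotientAddGroup.mk' (ann S)) ∈ S
  rw [this]; exact hγ

theorem qchar_bohr (S : Set (G →+ UnitAddCircle)) {r : ℝ} {x : G} :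
    QuotientAddGroup.mk' (ann S) x ∈ bohr (qchar S) r ↔ x ∈ bohr S r := by
  constructor
  · intro h γ hγ
    obtain ⟨γ', hγ', e⟩ := qchar_exists S hγ
    rw [← e x]; exact h γ' hγ'
  · intro h γ' hγ'
    have h3 := h (γ'.comp (QuotientAddGroup.mk' (ann S))) hγ'
    rw [AddMonoidHom.comp_apply] at h3
    exact h3

theorem qchar_ann (S : Set (G →+ UnitAddCircle)) : ann (qchar S) = ⊥ := by
  rw [AddSubgroup.eq_bot_iff_forall]
  intro y hy
  obtain ⟨x, rfl⟩ := QuotientAddGroup.mk'_surjective (ann S) y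
  have : x ∈ ann S := by
    intro γ hγ
    obtain ⟨γ', hγ', e⟩ := qchar_exists S hγ
    rw [← e x]; exact hy γ' hγ'
  exact (QuotientAddGroup.eq_zero_iff x).2 this

theorem qchar_card (S : Set (G →+ UnitAddCircle)) (r : ℝ) :
    (bohr S r).ncard = Nat.card (ann S) * (bohr (qchar S) r).ncard := by
  have e : bohr S r = (QuotientAddGroup.mk : G → G ⧸ ann S) ⁻¹' (bohr (qchar S) r) := by
    ext x
    exact (qchar_bohr S).symm
  rw [← Nat.card_coe_set_eq, ← Nat.card_coe_set_eq, ← Nat.card_prod, e]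
  exact Nat.card_congr (QuotientAddGroup.preimageMkEquivAddSubgroupProdSet _ _)

/-- the case of a small annihilator -/
theorem coset_case_small (S : Set (G →+ UnitAddCircle)) (hfin : (bohr S (1 / 6)).Finite)
    {A : Finset G} {V : ℝ} (hV : 1 ≤ V)
    (hsize : ((bohr S (1 / 6)).ncard : ℝ) ≤ V * A.card)
    {ρ : ℝ} (hρ0 : 0 < ρ) (hρ : ρ ≤ 1 / 12) {X : Finset G}
    (hX : ∀ a ∈ A, ∃ x ∈ X, a - x ∈ bohr S ρ)
    {m : ℕ} (N : Seminorm ℝ (Fin m → ℝ)) (ψ : (Fin m → ℤ) →+ G) (hN : ∀ x, N x = 0 → x = 0)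
    (h1 : ∀ c : Fin m → ℤ, N (fun i => (c i : ℝ)) < 1 / 2 → ∀ r : ℝ, 0 ≤ r →
        (ψ c ∈ bohr S r ↔ c ∈ LL N r))
    (h2 : ∀ x ∈ bohr S ρ, ∃ c ∈ LL N ρ, x - ψ c ∈ ann S) (hbig : Nat.card (ann S) ≤ A.card) :
    ∃ (k : ℕ) (v : Fin k → G) (L : Fin k → ℕ) (T : Finset G), k ≤ m ∧
      (∀ a b : Fin k → ℤ, (∀ i, |a i| ≤ L i) → (∀ i, |b i| ≤ L i) →
        ∑ i, a i • v i - ∑ i, b i • v i ∈ ann S → a = b) ∧
      (∏ i, (2 * L i + 1)) * Nat.card (ann S) ≤ A.card ∧
      (T.card : ℝ) ≤ X.card * (2 * V * (4 * m + 1) ^ m * (12 * m ^ 3) ^ m) ∧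
      ∀ a ∈ A, ∃ t ∈ T, ∃ c : Fin k → ℤ, (∀ i, |c i| ≤ L i) ∧
        ∃ h ∈ ann S, a = t + ∑ i, c i • v i + h := by
  classical
  haveI hannfin : Finite (ann S) := cover_ann_finite S hfin
  have hannpos : 0 < Nat.card (ann S) := Nat.card_pos
  obtain ⟨π, hπ⟩ : ∃ π : G →+ G ⧸ ann S, π = QuotientAddGroup.mk' (ann S) := ⟨_, rfl⟩
  have hsurj : Function.Surjective π := by rw [hπ]; exact QuotientAddGroup.mk'_surjective _
  have hker : ∀ x, π x = 0 ↔ x ∈ ann S := by
    intro x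
    rw [hπ]
    exact QuotientAddGroup.eq_zero_iff x
  have hbohr : ∀ (r : ℝ) (x : G), π x ∈ bohr (qchar S) r ↔ x ∈ bohr S r := by
    intro r x
    rw [hπ]
    exact qchar_bohr S
  obtain ⟨n, hn⟩ : ∃ n, n = A.card / Nat.card (ann S) := ⟨_, rfl⟩
  have hn1 : 1 ≤ n := by rw [hn]; exact Nat.div_pos hbig hannpos
  have hnA : n * Nat.card (ann S) ≤ A.card := by rw [hn]; exact Nat.div_mul_le_self _ _
  have hnA2 : A.card < (n + 1) * Nat.card (ann S) := by
    have := Nat.lt_div_mul_add hannpos (a := A.card)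
    rw [← hn] at this
    linarith [add_mul n 1 (Nat.card (ann S))]
  have hfin' : (bohr (qchar S) (1 / 6)).Finite := by
    have : bohr (qchar S) (1 / 6) ⊆ π '' (bohr S (1 / 6)) := by
      intro y hy
      obtain ⟨x, rfl⟩ := hsurj y
      exact ⟨x, (hbohr _ x).1 hy, rfl⟩
    exact (hfin.image π).subset this
  have hsize' : ((bohr (qchar S) (1 / 6)).ncard : ℝ) ≤ (2 * V) * n := by
    rw [qchar_card] at hsize
    push_cast at hsize
    have h3 : (A.card : ℝ) ≤ 2 * n * Nat.card (ann S) := by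
      have h4 : A.card ≤ 2 * n * Nat.card (ann S) := by
        calc A.card ≤ (n + 1) * Nat.card (ann S) := hnA2.le
          _ ≤ 2 * n * Nat.card (ann S) := Nat.mul_le_mul_right _ (by omega)
      exact_mod_cast h4
    have hc0 : (0 : ℝ) < Nat.card (ann S) := by exact_mod_cast hannpos
    have h5 : (Nat.card (ann S) : ℝ) * (bohr (qchar S) (1 / 6)).ncard ≤
        Nat.card (ann S) * ((2 * V) * n) := by
      calc (Nat.card (ann S) : ℝ) * (bohr (qchar S) (1 / 6)).ncard ≤ V * A.card := hsize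
        _ ≤ V * (2 * n * Nat.card (ann S)) := mul_le_mul_of_nonneg_left h3 (by linarith)
        _ = _ := by ring
    exact le_of_mul_le_mul_left h5 hc0
  have hX' : ∀ a ∈ A.image π, ∃ x ∈ X.image π, a - x ∈ bohr (qchar S) ρ := by
    intro a' ha'
    obtain ⟨a, ha, rfl⟩ := Finset.mem_image.1 ha'
    obtain ⟨x, hx, hax⟩ := hX a ha
    refine ⟨π x, Finset.mem_image_of_mem _ hx, ?_⟩
    rw [← map_sub, hbohr]
    exact hax
  have h1' : ∀ c : Fin m → ℤ, N (fun i => (c i : ℝ)) < 1 / 2 → ∀ r : ℝ, 0 ≤ r →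
        ((π.comp ψ) c ∈ bohr (qchar S) r ↔ c ∈ LL N r) := by
    intro c hc r hr
    rw [AddMonoidHom.comp_apply, hbohr]
    exact h1 c hc r hr
  have h2' : ∀ x ∈ bohr (qchar S) ρ, ∃ c ∈ LL N ρ, x - (π.comp ψ) c ∈ ann (qchar S) := by
    intro y hy
    obtain ⟨x, rfl⟩ := hsurj y
    obtain ⟨c, hc, hxc⟩ := h2 x ((hbohr _ x).1 hy)
    refine ⟨c, hc, ?_⟩
    rw [qchar_ann, AddSubgroup.mem_bot, AddMonoidHom.comp_apply, ← map_sub]
    exact (hker _).2 hxc
  obtain ⟨k, v', L, T', hk, hprop, hprod, hT, hcov⟩ :=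
    gap_final_n (qchar S) hfin' hn1 (by linarith : (1 : ℝ) ≤ 2 * V) hsize' hρ0 hρ hX' N
      (π.comp ψ) hN h1' h2' (qchar_ann S)
  obtain ⟨s, hs⟩ : ∃ s : G ⧸ ann S → G, ∀ y, π (s y) = y :=
    ⟨Function.surjInv hsurj, Function.surjInv_eq hsurj⟩
  have hsum : ∀ c : Fin k → ℤ, π (∑ i, c i • s (v' i)) = ∑ i, c i • v' i := by
    intro c
    rw [map_sum]
    refine Finset.sum_congr rfl fun i _ => ?_
    rw [map_zsmul, hs]
  refine ⟨k, fun i => s (v' i), L, T'.image s, hk, ?_, ?_, ?_, ?_⟩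
  · intro a b ha hb hab
    have h3 := (hker _).2 hab
    rw [map_sub, sub_eq_zero, hsum, hsum] at h3
    exact hprop a b ha hb h3
  · exact (Nat.mul_le_mul_right _ hprod).trans hnA
  · have hXc : ((X.image π).card : ℝ) ≤ X.card := by exact_mod_cast Finset.card_image_le
    calc ((T'.image s).card : ℝ) ≤ T'.card := by exact_mod_cast Finset.card_image_le
      _ ≤ (X.image π).card * (2 * V * (4 * m + 1) ^ m * (12 * m ^ 3) ^ m) := hT
      _ ≤ _ := mul_le_mul_of_nonneg_right hXc (by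
          have : 0 ≤ 2 * V := by linarith
          positivity)
  · intro a ha
    obtain ⟨t, ht, c, hc, e⟩ := hcov (π a) (Finset.mem_image_of_mem _ ha)
    refine ⟨s t, Finset.mem_image_of_mem _ ht, c, hc, a - (s t + ∑ i, c i • s (v' i)), ?_, ?_⟩
    · rw [← hker, map_sub, map_add, hs, hsum, e, sub_self]
    · abel

/-- a finite abelian group `H` larger than `a ≥ 1` is covered by few translates of a proper
one-dimensional coset progression of volume `≤ a`. -/
theorem big_subgroup_proper (H₀ : AddSubgroup G) (hfin : Finite H₀) {a : ℕ} (ha : 1 ≤ a)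
    (hbig : a < Nat.card H₀) :
    ∃ (l : ℕ) (g : G) (H₁ : AddSubgroup G) (T : Finset G), Finite H₁ ∧ H₁ ≤ H₀ ∧
      (2 * l + 1) * Nat.card H₁ ≤ a ∧ (T.card : ℝ) * a ≤ 6 * Nat.card H₀ ∧
      (∀ h ∈ H₀, ∃ t ∈ T, ∃ c : ℤ, |c| ≤ l ∧ ∃ h' ∈ H₁, h = t + c • g + h') ∧
      ∀ a b : ℤ, |a| ≤ l → |b| ≤ l → a • g - b • g ∈ H₁ → a = b := by
  classical
  -- choose H₁ maximal
  have hex : ∃ n : ℕ, n ≤ a ∧ ∃ H₁ : AddSubgroup G, H₁ ≤ H₀ ∧ Nat.card H₁ = n := by
    exact ⟨1, ha, ⊥, bot_le, by simp⟩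
  obtain ⟨n, ⟨hna, H₁, hle, hcard⟩, hmax⟩ : ∃ n : ℕ, (n ≤ a ∧ ∃ H₁ : AddSubgroup G, H₁ ≤ H₀ ∧ Nat.card H₁ = n) ∧
      ∀ n', (n' ≤ a ∧ ∃ H₁ : AddSubgroup G, H₁ ≤ H₀ ∧ Nat.card H₁ = n') → n' ≤ n := by
    obtain ⟨n0, h0⟩ := hex
    refine ⟨Nat.findGreatest (fun n => n ≤ a ∧ ∃ H₁ : AddSubgroup G, H₁ ≤ H₀ ∧ Nat.card H₁ = n) a, ?_, ?_⟩
    · exact Nat.findGreatest_spec (P := fun n => n ≤ a ∧ ∃ H₁ : AddSubgroup G, H₁ ≤ H₀ ∧ Nat.card H₁ = n) h0.1 h0
    · intro n' h'
      exact Nat.le_findGreatest h'.1 h'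
  have hfin1 : Finite H₁ := Finite.of_injective (fun x : H₁ => (⟨x.1, hle x.2⟩ : H₀)) (by
    intro x y h
    apply Subtype.ext
    exact congrArg (fun z : H₀ => (z : G)) h)
  have hH1pos : 0 < Nat.card H₁ := Nat.card_pos
  have hne : ∃ g ∈ H₀, g ∉ H₁ := by
    by_contra hcon
    push Not at hcon
    have : H₀ = H₁ := le_antisymm hcon hle
    rw [this] at hbig
    omega
  obtain ⟨g, hg0, hg1⟩ := hne
  have hsup_le : H₁ ⊔ AddSubgroup.zmultiples g ≤ H₀ := by
    apply sup_le hle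
    rw [AddSubgroup.zmultiples_le]
    exact hg0
  have hsup_big : a < Nat.card (H₁ ⊔ AddSubgroup.zmultiples g : AddSubgroup G) := by
    by_contra hcon
    push Not at hcon
    have h1 := hmax _ ⟨hcon, _, hsup_le, rfl⟩
    have hfin2 : Finite (H₁ ⊔ AddSubgroup.zmultiples g : AddSubgroup G) :=
      Finite.of_injective (fun x : (H₁ ⊔ AddSubgroup.zmultiples g : AddSubgroup G) => (⟨x.1, hsup_le x.2⟩ : H₀)) (by
        intro x y h
        apply Subtype.ext
        exact congrArg (fun z : H₀ => (z : G)) h)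
    have h2 : H₁ = H₁ ⊔ AddSubgroup.zmultiples g := by
      apply AddSubgroup.eq_of_le_of_card_ge le_sup_left
      rw [hcard]; exact h1
    apply hg1
    rw [h2]
    exact (le_sup_right : AddSubgroup.zmultiples g ≤ _) (AddSubgroup.mem_zmultiples g)
  -- parameters
  set x := a / Nat.card H₁ with hx
  have hx1 : 1 ≤ x := by
    rw [hx, Nat.le_div_iff_mul_le hH1pos]; omega
  have hxa : x * Nat.card H₁ ≤ a := Nat.div_mul_le_self _ _
  have hxa2 : a < (x + 1) * Nat.card H₁ := by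
    have := Nat.lt_div_mul_add hH1pos (a := a)
    rw [← hx] at this
    linarith [add_mul x 1 (Nat.card H₁)]
  set l := (x - 1) / 2 with hl
  have hl1 : 2 * l + 1 ≤ x := by omega
  have hl2 : x + 1 ≤ 3 * (l + 1) := by omega
  -- finsets
  have hsetfin0 : (H₀ : Set G).Finite := Set.toFinite _
  have hsetfin1 : (H₁ : Set G).Finite := Set.toFinite _
  set F0 := hsetfin0.toFinset with hF0
  set F1 := hsetfin1.toFinset with hF1
  have hF0c : F0.card = Nat.card H₀ := by
    rw [hF0, ← Set.ncard_eq_toFinset_card _ hsetfin0]; rfl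
  have hF1c : F1.card = Nat.card H₁ := by
    rw [hF1, ← Set.ncard_eq_toFinset_card _ hsetfin1]; rfl
  set P := ((Finset.range (l + 1)) ×ˢ F1).image (fun p : ℕ × G => p.1 • g + p.2) with hP
  have hnotin : ∀ k : ℕ, 0 < k → k ≤ 2 * l → k • g ∉ H₁ := by
    intro k hk hkl hmem
    have h1 := cover_sup_card H₁ g hk hmem
    have h2 : k * Nat.card H₁ ≤ x * Nat.card H₁ := Nat.mul_le_mul_right _ (by omega)
    omega
  have hPc : P.card = (l + 1) * Nat.card H₁ := by
    rw [hP, Finset.card_image_of_injOn, Finset.card_product, Finset.card_range, hF1c]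
    -- injectivity
    have key : ∀ c c' : ℕ, ∀ h h' : G, c' < c → c ≤ l → h ∈ H₁ → h' ∈ H₁ → c • g + h = c' • g + h' → False := by
      intro c c' h h' hlt hcl hh hh' heq
      apply hnotin (c - c') (by omega) (by omega)
      have : (c - c') • g = h' - h := by
        have e1 : c • g = (c - c') • g + c' • g := by
          rw [← add_smul]; congr 1; omega
        rw [e1] at heq
        have : (c - c') • g + h + c' • g = h' + c' • g := by
          rw [add_right_comm, heq, add_comm]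
        have := add_right_cancel this
        rw [← this]; abel
      rw [this]
      exact H₁.sub_mem hh' hh
    rintro ⟨c, h⟩ hc ⟨c', h'⟩ hc' heq
    simp only [Finset.coe_product, Set.mem_prod, Finset.mem_coe, Finset.mem_range, hF1,
      Set.Finite.mem_toFinset, SetLike.mem_coe] at hc hc'
    simp only at heq
    rcases lt_trichotomy c c' with hlt | heqc | hgt
    · exact (key c' c h' h hlt (by omega) hc'.2 hc.2 heq.symm).elim
    · subst heqc
      rw [add_left_cancel heq]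
    · exact (key c c' h h' hgt (by omega) hc.2 hc'.2 heq).elim
  have hPne : P.Nonempty := by
    rw [← Finset.card_pos, hPc]; positivity
  have hPsub : ∀ p ∈ P, p ∈ H₀ := by
    intro p hp
    rw [hP, Finset.mem_image] at hp
    obtain ⟨⟨c, h⟩, hch, rfl⟩ := hp
    simp only [Finset.mem_product, Finset.mem_range, hF1, Set.Finite.mem_toFinset,
      SetLike.mem_coe] at hch
    exact H₀.add_mem (H₀.nsmul_mem hg0 _) (hle hch.2)
  have hadd : ((F0 + P).card : ℝ) ≤ ((Nat.card H₀ : ℝ) / P.card) * P.card := by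
    have hPpos : (0 : ℝ) < P.card := by exact_mod_cast hPne.card_pos
    rw [div_mul_cancel₀ _ hPpos.ne', ← hF0c]
    norm_cast
    apply Finset.card_le_card
    intro z hz
    obtain ⟨u, hu, v, hv, rfl⟩ := Finset.mem_add.1 hz
    rw [hF0, Set.Finite.mem_toFinset] at hu ⊢
    exact H₀.add_mem hu (hPsub v hv)
  obtain ⟨T, hTsub, hTc, hcov⟩ := Finset.ruzsa_covering_add hPne hadd
  refine ⟨l, g, H₁, T, hfin1, hle, ?_, ?_, ?_, ?_⟩
  · calc (2 * l + 1) * Nat.card H₁ ≤ x * Nat.card H₁ := Nat.mul_le_mul_right _ hl1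
      _ ≤ a := hxa
  · have hPpos : (0 : ℝ) < P.card := by exact_mod_cast hPne.card_pos
    rw [le_div_iff₀ hPpos] at hTc
    have h3 : (a : ℝ) ≤ 3 * P.card := by
      have : a ≤ 3 * P.card := by
        rw [hPc]
        have := Nat.mul_le_mul_right (Nat.card H₁) hl2
        nlinarith
      exact_mod_cast this
    have hT0 : (0:ℝ) ≤ T.card := by positivity
    have hH0 : (0:ℝ) ≤ Nat.card H₀ := by positivity
    calc (T.card : ℝ) * a ≤ T.card * (3 * P.card) := mul_le_mul_of_nonneg_left h3 hT0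
      _ = 3 * (T.card * P.card) := by ring
      _ ≤ 3 * Nat.card H₀ := by linarith
      _ ≤ 6 * Nat.card H₀ := by linarith
  · intro h hh
    have hh' : h ∈ F0 := by rw [hF0, Set.Finite.mem_toFinset]; exact hh
    have := hcov hh'
    obtain ⟨t, ht, d, hd, rfl⟩ := Finset.mem_add.1 this
    obtain ⟨p, hp, p', hp', rfl⟩ := Finset.mem_sub.1 hd
    rw [hP, Finset.mem_image] at hp hp'
    obtain ⟨⟨c, u⟩, hcu, rfl⟩ := hp
    obtain ⟨⟨c', u'⟩, hcu', rfl⟩ := hp'
    simp only [Finset.mem_product, Finset.mem_range, hF1, Set.Finite.mem_toFinset,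
      SetLike.mem_coe] at hcu hcu'
    refine ⟨t, ht, (c : ℤ) - c', ?_, u - u', H₁.sub_mem hcu.2 hcu'.2, ?_⟩
    · rw [abs_le]; constructor <;> omega
    · simp only [sub_smul, natCast_zsmul]
      abel
  · -- properness
    have key : ∀ p q : ℤ, |p| ≤ l → |q| ≤ l → p • g - q • g ∈ H₁ → q ≤ p → p = q := by
      intro p q hp hq hpq hle'
      by_contra hne'
      rw [abs_le] at hp hq
      have h5 : 0 < p - q := by omega
      apply hnotin (p - q).toNat (by omega) (by omega)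
      have h6 : (p - q).toNat • g = (p - q) • g := by
        rw [← natCast_zsmul, Int.toNat_of_nonneg h5.le]
      rw [h6, sub_smul]
      exact hpq
    intro p q hp hq hpq
    rcases le_total q p with h | h
    · exact key p q hp hq hpq h
    · refine (key q p hq hp ?_ h).symm
      rw [← neg_sub]
      exact H₁.neg_mem hpq

end Pool.Agent.V1121.PF
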